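import Pool.Agent.H.MP_ea7ca7_co.B

namespace Pool.Agent.H.MP_4a7072_co

open Pool.Agent.H.MP_ea7ca7_co

/-- The plane region `R` folds into the surface of the cube of edge `l`: it is cut by creases into
finitely many convex polygons, and one map `f`, rigid on each polygon, carries `R` onto the whole
surface of `[0,l]^3` and is injective on the interior of `R`. -/
def FoldsInto (R : Set P2) (l : ℝ) : Prop :=
  ∃ f : P2 → P3, ∃ K : Set (Set P2), K.Finite ∧ (∀ V ∈ K, V.Finite) ∧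
    (⋃ V ∈ K, convexHull ℝ V) = R ∧
    (∀ V ∈ K, ∀ x ∈ convexHull ℝ V, ∀ y ∈ convexHull ℝ V, dist (f x) (f y) = dist x y) ∧
    f '' R = cubeSurface l ∧ Set.InjOn f (interior R)

lemma into_sim {R : Set P2} {l : ℝ} (h : FoldsInto R l) (s : ℝ) (hs : 0 < s) (t : P2) :
    FoldsInto ((fun p => s • p + t) '' R) (s * l) := by
  obtain ⟨f, K, hK, hV, hU, hI, hS, hJ⟩ := h
  let φ : P2 ≃ₜ P2 := (Homeomorph.smulOfNeZero s hs.ne').trans (Homeomorph.addRight t)
  have hφ : ∀ p, φ p = s • p + t := fun p => rfl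
  have hφ' : (fun p => s • p + t) = φ := rfl
  let ψ : P2 →ᵃ[ℝ] P2 := (AffineMap.const ℝ P2 t) + s • AffineMap.id ℝ P2
  have hψ : (ψ : P2 → P2) = φ := by
    funext p; simp [ψ, hφ, add_comm]
  have hh : ∀ V : Set P2, convexHull ℝ (φ '' V) = φ '' convexHull ℝ V := by
    intro V; rw [← hψ, AffineMap.image_convexHull]
  have hd : ∀ x y, dist (φ x) (φ y) = s * dist x y := by
    intro x y; rw [hφ, hφ, dist_add_right, dist_smul₀, Real.norm_of_nonneg hs.le]
  rw [hφ']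
  refine ⟨fun q => s • f (φ.symm q), (fun V => φ '' V) '' K, hK.image _, ?_, ?_,
    ?_, ?_, ?_⟩
  · rintro _ ⟨V, hV', rfl⟩; exact (hV V hV').image _
  · rw [← hU]; simp only [Set.biUnion_image, hh, Set.image_iUnion]
  · rintro _ ⟨V, hV', rfl⟩ x hx y hy
    rw [hh] at hx hy
    obtain ⟨x, hx, rfl⟩ := hx
    obtain ⟨y, hy, rfl⟩ := hy
    simp only [Homeomorph.symm_apply_apply]
    rw [hd, dist_smul₀, Real.norm_of_nonneg hs.le, hI V hV' x hx y hy]
  · rw [Set.image_image]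
    simp only [Homeomorph.symm_apply_apply]
    rw [← Set.image_image (fun q : P3 => s • q) f, hS]
    ext q
    constructor
    · rintro ⟨r, ⟨h1, k, h2⟩, rfl⟩
      refine ⟨fun j => ?_, k, ?_⟩
      · simp only [PiLp.smul_apply, smul_eq_mul]
        exact ⟨mul_nonneg hs.le (h1 j).1, mul_le_mul_of_nonneg_left (h1 j).2 hs.le⟩
      · simp only [PiLp.smul_apply, smul_eq_mul]
        rcases h2 with h2 | h2 <;> simp [h2]
    · rintro ⟨h1, k, h2⟩
      refine ⟨s⁻¹ • q, ⟨fun j => ?_, k, ?_⟩, by simp [smul_smul, hs.ne']⟩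
      · simp only [PiLp.smul_apply, smul_eq_mul]
        refine ⟨mul_nonneg (inv_nonneg.2 hs.le) (h1 j).1, ?_⟩
        rw [inv_mul_le_iff₀ hs]; exact (h1 j).2
      · simp only [PiLp.smul_apply, smul_eq_mul]
        rcases h2 with h2 | h2
        · simp [h2]
        · right; rw [h2]; field_simp
  · rw [← φ.image_interior]
    rintro _ ⟨x, hx, rfl⟩ _ ⟨y, hy, rfl⟩ hxy
    simp only [Homeomorph.symm_apply_apply] at hxy
    rw [hJ hx hy (smul_right_injective _ hs.ne' hxy)]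

lemma into_of_chk {l : ℕ} (hl : 0 < l) {L : List D} (h : chk l L) :
    FoldsInto (region (cellsOf L)) l := by
  classical
  obtain ⟨hf, ha, hs, hi⟩ := h
  let f : P2 → P3 := fun p => if h : ∃ d ∈ L, p ∈ cell (d.i, d.j) then g h.choose p else 0
  have hfg : ∀ d ∈ L, ∀ p ∈ cell (d.i, d.j), f p = g d p := by
    intro d hd p hp
    have h : ∃ d ∈ L, p ∈ cell (d.i, d.j) := ⟨d, hd, hp⟩
    simp only [f, dif_pos h]
    exact g_agree (ha _ h.choose_spec.1 d hd) h.choose_spec.2 hp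
  have hmem : ∀ p, p ∈ region (cellsOf L) ↔ ∃ d ∈ L, p ∈ cell (d.i, d.j) := by
    intro p
    rw [mem_region]
    constructor
    · rintro ⟨c, hc, hp⟩
      obtain ⟨d, hd, e1, e2⟩ := mem_cellsOf.1 hc
      exact ⟨d, hd, by rw [e1, e2]; exact hp⟩
    · rintro ⟨d, hd, hp⟩
      exact ⟨_, mem_cellsOf.2 ⟨d, hd, rfl, rfl⟩, hp⟩
  refine ⟨f, corners '' (cellsOf L : Set (ℤ × ℤ)),
    (Finset.finite_toSet _).image _, ?_, ?_, ?_, ?_, ?_⟩
  · rintro _ ⟨c, -, rfl⟩
    unfold corners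
    exact Set.toFinite _
  · simp only [Set.biUnion_image, hull_corners]; rfl
  · rintro _ ⟨c, hc, rfl⟩ x hx y hy
    rw [hull_corners] at hx hy
    obtain ⟨d, hd, e1, e2⟩ := mem_cellsOf.1 hc
    have : c = (d.i, d.j) := Prod.ext e1.symm e2.symm
    subst this
    rw [hfg d hd x hx, hfg d hd y hy, g_dist (hf d hd)]
  · ext q
    constructor
    · rintro ⟨p, hp, rfl⟩
      obtain ⟨d, hd, hp⟩ := (hmem p).1 hp
      rw [hfg d hd p hp]
      exact g_mem (hf d hd) hp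
    · intro hq
      obtain ⟨d, hd, p, hp, e⟩ := g_surj hl hf hs hq
      exact ⟨p, (hmem p).2 ⟨d, hd, hp⟩, by rw [hfg d hd p hp, e]⟩
  · intro p hp p' hp' e
    obtain ⟨d, hd, hc, e1, m1, e2, m2, hv, u1, u2⟩ := carrier hp
    obtain ⟨d', hd', hc', e1', m1', e2', m2', hv', u1', u2'⟩ := carrier hp'
    have e' := e
    rw [hfg d hd p hc, hfg d' hd' p' hc'] at e'
    obtain ⟨t1, t2, t3, -⟩ := hf d hd
    obtain ⟨t1', t2', t3', -⟩ := hf d' hd'
    have q0 : val d.x (p 0 - d.i) (p 1 - d.j) = val d'.x (p' 0 - d'.i) (p' 1 - d'.j) :=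
      congrArg (fun q : P3 => q 0) e'
    have q1 : val d.y (p 0 - d.i) (p 1 - d.j) = val d'.y (p' 0 - d'.i) (p' 1 - d'.j) :=
      congrArg (fun q : P3 => q 1) e'
    have q2 : val d.z (p 0 - d.i) (p 1 - d.j) = val d'.z (p' 0 - d'.i) (p' 1 - d'.j) :=
      congrArg (fun q : P3 => q 2) e'
    obtain ⟨k1, k2⟩ := hi d hd e1 m1 e2 m2 hv d' hd' e1' m1' e2' m2'
      (by rw [← kap_val t1 u1 u2, ← kap_val t1' u1' u2', q0])
      (by rw [← kap_val t2 u1 u2, ← kap_val t2' u1' u2', q1])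
      (by rw [← kap_val t3 u1 u2, ← kap_val t3' u1' u2', q2]) hv'
    rw [← k1, ← k2] at hc'
    rw [hfg d hd p hc, hfg d hd p' hc'] at e
    have := g_dist (hf d hd) p p'
    rw [e, dist_self] at this
    exact dist_eq_zero.1 this.symm


lemma card_sim {m : ℕ} (hm : 0 < m) (A : Finset (ℤ × ℤ)) : (sim m 0 A).card = m ^ 2 * A.card := by
  have hm' : (0 : ℤ) < m := by exact_mod_cast hm
  have key : ∀ (a : ℤ × ℤ) (c : ℤ × ℤ), c ∈ (Finset.range m ×ˢ Finset.range m).image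
      (fun d : ℕ × ℕ => ((0 : ℤ × ℤ).1 + m * a.1 + d.1, (0 : ℤ × ℤ).2 + m * a.2 + d.2)) →
      ((c.1 - 0) / m, (c.2 - 0) / m) = a := by
    intro a c hc
    have : c ∈ sim m 0 {a} := by simpa [sim] using hc
    simpa using (mem_sim hm).1 this
  unfold sim
  rw [Finset.card_biUnion]
  · rw [Finset.sum_const_nat (m := m ^ 2), mul_comm]
    intro a _
    rw [Finset.card_image_of_injective]
    · simp [sq]
    · intro d e h
      simp only [Prod.mk.injEq] at h
      ext <;> omega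
  · intro a _ b _ hab
    rw [Function.onFun, Finset.disjoint_left]
    intro c h1 h2
    exact hab ((key a c h1).symm.trans (key b c h2))

def nd : List ℕ → ℕ → Bool
  | [], _ => true
  | k :: l, m => !(m.testBit k) && nd l (m ||| 2 ^ k)

lemma nd_spec : ∀ (l : List ℕ) (m : ℕ), nd l m = true → l.Nodup ∧ ∀ k ∈ l, m.testBit k = false
  | [], _, _ => by simp
  | k :: l, m, h => by
    simp only [nd, Bool.and_eq_true, Bool.not_eq_true'] at h
    obtain ⟨h1, h2⟩ := nd_spec l _ h.2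
    simp only [Nat.testBit_or, Bool.or_eq_false_iff] at h2
    refine ⟨List.nodup_cons.2 ⟨fun hk => ?_, h1⟩, ?_⟩
    · have := (h2 k hk).2
      simp at this
    · intro j hj
      rcases List.mem_cons.1 hj with rfl | hj
      · exact h.1
      · exact (h2 j hj).1

def ck (i j : ℤ) : ℕ := (i + 1).toNat + 128 * (j + 1).toNat

def cm : List D → ℕ
  | [] => 0
  | d :: L => cm L ||| 2 ^ ck d.i d.j

lemma cm_spec : ∀ (L : List D) (i j : ℤ), has L i j → (cm L).testBit (ck i j) = true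
  | [], _, _, h => by simp [has] at h
  | d :: L, i, j, h => by
    obtain ⟨e, he, h1, h2⟩ := h
    simp only [cm, Nat.testBit_or, Bool.or_eq_true]
    rcases List.mem_cons.1 he with rfl | he
    · right; rw [h1, h2]; simp
    · exact Or.inl (cm_spec L i j ⟨e, he, h1, h2⟩)

def items (M : ℕ) (L : List D) : List (D × ℤ × ℤ) :=
  L.flatMap fun d => (d, 1, 1) ::
    ((if M.testBit (ck (d.i - 1) d.j) then [(d, 0, 1)] else []) ++
    ((if M.testBit (ck d.i (d.j - 1)) then [(d, 1, 0)] else []) ++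
    (if M.testBit (ck (d.i - 1) d.j) && M.testBit (ck d.i (d.j - 1)) &&
      M.testBit (ck (d.i - 1) (d.j - 1)) then [(d, 0, 0)] else [])))

def key (x : D × ℤ × ℤ) : ℕ := (code x.1.x x.2.1 x.2.2).toNat +
  64 * (code x.1.y x.2.1 x.2.2).toNat + 4096 * (code x.1.z x.2.1 x.2.2).toNat

lemma mem_items {L : List D} {d : D} (hd : d ∈ L) {e1 e2 : ℤ} (h1 : e1 ∈ [(0 : ℤ), 1])
    (h2 : e2 ∈ [(0 : ℤ), 1]) (hv : valid L d e1 e2) : (d, e1, e2) ∈ items (cm L) L := by
  obtain ⟨v1, v2, v3⟩ := hv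
  simp only [List.mem_cons, List.not_mem_nil, or_false] at h1 h2
  refine List.mem_flatMap.2 ⟨d, hd, ?_⟩
  rcases h1 with rfl | rfl <;> rcases h2 with rfl | rfl
  · simp [cm_spec _ _ _ (v1 rfl), cm_spec _ _ _ (v2 rfl), cm_spec _ _ _ (v3 rfl rfl)]
  · simp [cm_spec _ _ _ (v1 rfl)]
  · simp [cm_spec _ _ _ (v2 rfl)]
  · simp

lemma inj_of {L : List D} {M : ℕ} (hM : cm L = M) (h : nd ((items M L).map key) 0 = true) : inj L := by
  subst hM
  intro d hd e1 h1 e2 h2 hv d' hd' e1' h1' e2' h2' c1 c2 c3 hv'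
  have := List.inj_on_of_nodup_map (nd_spec _ _ h).1 (mem_items hd h1 h2 hv) (mem_items hd' h1' h2' hv')
    (by simp only [key, c1, c2, c3])
  obtain ⟨rfl, -⟩ := Prod.mk.inj this
  exact ⟨rfl, rfl⟩

end Pool.Agent.H.MP_4a7072_co
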