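import Pool.Agent.H.MP_4a7072_co.A

namespace Pool.Agent.H.MP_4a7072_co

open Pool.Agent.H.MP_ea7ca7_co

def pA : List D :=
  [⟨15,21,(2,1,0),(2,0,-1),(0,0,0)⟩,
  ⟨14,21,(1,1,0),(2,0,-1),(0,0,0)⟩,
  ⟨12,22,(0,0,0),(1,0,-1),(1,-1,0)⟩,
  ⟨13,21,(0,1,0),(2,0,-1),(0,0,0)⟩,
  ⟨12,21,(0,0,0),(2,0,-1),(1,-1,0)⟩,
  ⟨9,23,(1,-1,0),(0,0,0),(3,0,-1)⟩,
  ⟨10,22,(0,0,0),(1,0,-1),(3,-1,0)⟩,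
  ⟨11,21,(0,0,0),(2,0,-1),(2,-1,0)⟩,
  ⟨8,23,(2,-1,0),(0,0,0),(3,0,-1)⟩,
  ⟨9,22,(1,-1,0),(1,0,-1),(3,0,0)⟩,
  ⟨10,21,(0,0,0),(2,0,-1),(3,-1,0)⟩,
  ⟨11,20,(0,0,0),(3,0,-1),(2,-1,0)⟩,
  ⟨7,23,(3,-1,0),(0,0,0),(3,0,-1)⟩,
  ⟨8,22,(2,-1,0),(1,0,-1),(3,0,0)⟩,
  ⟨10,16,(0,0,0),(2,0,1),(0,1,0)⟩,
  ⟨9,21,(1,-1,0),(2,0,-1),(3,0,0)⟩,
  ⟨10,20,(0,0,0),(3,0,-1),(3,-1,0)⟩,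
  ⟨7,22,(3,-1,0),(1,0,-1),(3,0,0)⟩,
  ⟨8,21,(2,-1,0),(2,0,-1),(3,0,0)⟩,
  ⟨9,16,(1,-1,0),(2,0,1),(0,0,0)⟩,
  ⟨9,20,(1,-1,0),(3,0,-1),(3,0,0)⟩,
  ⟨7,21,(3,-1,0),(2,0,-1),(3,0,0)⟩,
  ⟨8,20,(2,-1,0),(3,0,-1),(3,0,0)⟩,
  ⟨9,17,(1,-1,0),(3,0,0),(0,0,1)⟩,
  ⟨9,19,(1,-1,0),(3,0,0),(2,0,1)⟩,
  ⟨6,15,(1,0,1),(2,1,0),(0,0,0)⟩,
  ⟨7,20,(3,-1,0),(3,0,-1),(3,0,0)⟩,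
  ⟨8,17,(2,-1,0),(3,0,0),(0,0,1)⟩,
  ⟨8,19,(2,-1,0),(3,0,0),(2,0,1)⟩,
  ⟨9,18,(1,-1,0),(3,0,0),(1,0,1)⟩,
  ⟨6,16,(2,0,1),(2,1,0),(0,0,0)⟩,
  ⟨7,17,(3,-1,0),(3,0,0),(0,0,1)⟩,
  ⟨7,19,(3,-1,0),(3,0,0),(2,0,1)⟩,
  ⟨8,18,(2,-1,0),(3,0,0),(1,0,1)⟩,
  ⟨6,17,(3,0,0),(2,1,0),(0,0,1)⟩,
  ⟨6,19,(3,0,0),(2,1,0),(2,0,1)⟩,
  ⟨7,18,(3,-1,0),(3,0,0),(1,0,1)⟩,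
  ⟨5,17,(3,0,0),(1,1,0),(0,0,1)⟩,
  ⟨5,19,(3,0,0),(1,1,0),(2,0,1)⟩,
  ⟨6,18,(3,0,0),(2,1,0),(1,0,1)⟩,
  ⟨3,16,(2,1,0),(1,0,-1),(0,0,0)⟩,
  ⟨4,17,(3,0,0),(0,1,0),(0,0,1)⟩,
  ⟨4,19,(3,0,0),(0,1,0),(2,0,1)⟩,
  ⟨5,18,(3,0,0),(1,1,0),(1,0,1)⟩,
  ⟨2,16,(1,1,0),(1,0,-1),(0,0,0)⟩,
  ⟨3,17,(2,1,0),(0,0,0),(0,0,1)⟩,
  ⟨4,18,(3,0,0),(0,1,0),(1,0,1)⟩,
  ⟨1,16,(0,1,0),(1,0,-1),(0,0,0)⟩,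
  ⟨2,17,(1,1,0),(0,0,0),(0,0,1)⟩,
  ⟨3,18,(2,1,0),(0,0,0),(1,0,1)⟩,
  ⟨1,17,(0,1,0),(0,0,0),(0,0,1)⟩,
  ⟨2,18,(1,1,0),(0,0,0),(1,0,1)⟩,
  ⟨1,18,(0,1,0),(0,0,0),(1,0,1)⟩,
  ⟨0,18,(0,0,0),(1,-1,0),(1,0,1)⟩]

def pB : List D :=
  [⟨16,11,(1,0,-1),(3,-1,0),(0,0,0)⟩,
  ⟨15,11,(1,0,-1),(4,-1,0),(0,0,0)⟩,
  ⟨16,10,(2,0,-1),(3,-1,0),(0,0,0)⟩,
  ⟨10,15,(0,0,0),(3,1,0),(1,0,-1)⟩,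
  ⟨14,11,(1,0,-1),(4,0,0),(1,-1,0)⟩,
  ⟨15,10,(2,0,-1),(4,-1,0),(0,0,0)⟩,
  ⟨16,9,(3,0,-1),(3,-1,0),(0,0,0)⟩,
  ⟨8,16,(0,0,1),(1,1,0),(0,0,0)⟩,
  ⟨9,15,(0,0,0),(2,1,0),(1,0,-1)⟩,
  ⟨10,14,(0,0,0),(3,1,0),(2,0,-1)⟩,
  ⟨13,11,(1,0,-1),(4,0,0),(2,-1,0)⟩,
  ⟨14,10,(2,0,-1),(4,0,0),(1,-1,0)⟩,
  ⟨15,9,(3,0,-1),(4,-1,0),(0,0,0)⟩,
  ⟨7,16,(0,0,1),(0,1,0),(0,0,0)⟩,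
  ⟨8,15,(0,0,0),(1,1,0),(1,0,-1)⟩,
  ⟨9,14,(0,0,0),(2,1,0),(2,0,-1)⟩,
  ⟨10,13,(0,0,0),(3,1,0),(3,0,-1)⟩,
  ⟨12,11,(1,0,-1),(4,0,0),(3,-1,0)⟩,
  ⟨13,10,(2,0,-1),(4,0,0),(2,-1,0)⟩,
  ⟨14,9,(3,0,-1),(4,0,0),(1,-1,0)⟩,
  ⟨7,15,(0,0,0),(0,1,0),(1,0,-1)⟩,
  ⟨8,14,(0,0,0),(1,1,0),(2,0,-1)⟩,
  ⟨9,13,(0,0,0),(2,1,0),(3,0,-1)⟩,
  ⟨10,12,(0,0,0),(3,1,0),(4,0,-1)⟩,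
  ⟨11,11,(1,0,-1),(4,0,0),(4,-1,0)⟩,
  ⟨12,10,(2,0,-1),(4,0,0),(3,-1,0)⟩,
  ⟨13,9,(3,0,-1),(4,0,0),(2,-1,0)⟩,
  ⟨14,8,(4,0,-1),(4,0,0),(1,-1,0)⟩,
  ⟨7,14,(0,0,0),(0,1,0),(2,0,-1)⟩,
  ⟨8,13,(0,0,0),(1,1,0),(3,0,-1)⟩,
  ⟨9,12,(0,0,0),(2,1,0),(4,0,-1)⟩,
  ⟨10,11,(1,0,-1),(3,1,0),(4,0,0)⟩,
  ⟨11,10,(2,0,-1),(4,0,0),(4,-1,0)⟩,
  ⟨12,9,(3,0,-1),(4,0,0),(3,-1,0)⟩,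
  ⟨13,8,(4,0,-1),(4,0,0),(2,-1,0)⟩,
  ⟨7,13,(0,0,0),(0,1,0),(3,0,-1)⟩,
  ⟨8,12,(0,0,0),(1,1,0),(4,0,-1)⟩,
  ⟨9,11,(1,0,-1),(2,1,0),(4,0,0)⟩,
  ⟨10,10,(2,0,-1),(3,1,0),(4,0,0)⟩,
  ⟨11,9,(3,0,-1),(4,0,0),(4,-1,0)⟩,
  ⟨12,8,(4,0,-1),(4,0,0),(3,-1,0)⟩,
  ⟨7,12,(0,0,0),(0,1,0),(4,0,-1)⟩,
  ⟨6,11,(1,0,-1),(0,0,0),(3,1,0)⟩,
  ⟨8,11,(1,0,-1),(1,1,0),(4,0,0)⟩,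
  ⟨9,10,(2,0,-1),(2,1,0),(4,0,0)⟩,
  ⟨10,9,(3,0,-1),(3,1,0),(4,0,0)⟩,
  ⟨11,8,(4,0,-1),(4,0,0),(4,-1,0)⟩,
  ⟨7,11,(1,0,-1),(0,1,0),(4,0,0)⟩,
  ⟨8,10,(2,0,-1),(1,1,0),(4,0,0)⟩,
  ⟨9,9,(3,0,-1),(2,1,0),(4,0,0)⟩,
  ⟨10,8,(4,0,-1),(3,1,0),(4,0,0)⟩,
  ⟨7,10,(2,0,-1),(0,1,0),(4,0,0)⟩,
  ⟨6,9,(3,0,-1),(0,0,0),(3,1,0)⟩,
  ⟨8,9,(3,0,-1),(1,1,0),(4,0,0)⟩,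
  ⟨9,8,(4,0,-1),(2,1,0),(4,0,0)⟩,
  ⟨10,7,(4,0,0),(3,1,0),(3,0,1)⟩,
  ⟨7,9,(3,0,-1),(0,1,0),(4,0,0)⟩,
  ⟨8,8,(4,0,-1),(1,1,0),(4,0,0)⟩,
  ⟨9,7,(4,0,0),(2,1,0),(3,0,1)⟩,
  ⟨10,6,(4,0,0),(3,1,0),(2,0,1)⟩,
  ⟨7,8,(4,0,-1),(0,1,0),(4,0,0)⟩,
  ⟨8,7,(4,0,0),(1,1,0),(3,0,1)⟩,
  ⟨9,6,(4,0,0),(2,1,0),(2,0,1)⟩,
  ⟨10,5,(4,0,0),(3,1,0),(1,0,1)⟩,
  ⟨6,0,(3,1,0),(4,0,-1),(0,0,0)⟩,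
  ⟨7,7,(4,0,0),(0,1,0),(3,0,1)⟩,
  ⟨8,6,(4,0,0),(1,1,0),(2,0,1)⟩,
  ⟨9,5,(4,0,0),(2,1,0),(1,0,1)⟩,
  ⟨10,4,(4,0,0),(3,1,0),(0,0,1)⟩,
  ⟨6,1,(3,1,0),(3,0,-1),(0,0,0)⟩,
  ⟨6,7,(3,1,0),(0,0,0),(3,0,1)⟩,
  ⟨7,6,(4,0,0),(0,1,0),(2,0,1)⟩,
  ⟨8,5,(4,0,0),(1,1,0),(1,0,1)⟩,
  ⟨9,4,(4,0,0),(2,1,0),(0,0,1)⟩,
  ⟨6,2,(3,1,0),(2,0,-1),(0,0,0)⟩,
  ⟨6,6,(3,1,0),(0,0,0),(2,0,1)⟩,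
  ⟨7,5,(4,0,0),(0,1,0),(1,0,1)⟩,
  ⟨8,4,(4,0,0),(1,1,0),(0,0,1)⟩,
  ⟨4,7,(1,1,0),(0,0,0),(3,0,1)⟩,
  ⟨5,2,(2,1,0),(2,0,-1),(0,0,0)⟩,
  ⟨5,6,(2,1,0),(0,0,0),(2,0,1)⟩,
  ⟨6,3,(3,1,0),(1,0,-1),(0,0,0)⟩,
  ⟨6,5,(3,1,0),(0,0,0),(1,0,1)⟩,
  ⟨7,4,(4,0,0),(0,1,0),(0,0,1)⟩,
  ⟨4,2,(1,1,0),(2,0,-1),(0,0,0)⟩,
  ⟨4,6,(1,1,0),(0,0,0),(2,0,1)⟩,
  ⟨5,3,(2,1,0),(1,0,-1),(0,0,0)⟩,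
  ⟨5,5,(2,1,0),(0,0,0),(1,0,1)⟩,
  ⟨6,4,(3,1,0),(0,0,0),(0,0,1)⟩,
  ⟨3,6,(0,1,0),(0,0,0),(2,0,1)⟩,
  ⟨4,3,(1,1,0),(1,0,-1),(0,0,0)⟩,
  ⟨4,5,(1,1,0),(0,0,0),(1,0,1)⟩,
  ⟨5,4,(2,1,0),(0,0,0),(0,0,1)⟩,
  ⟨3,5,(0,1,0),(0,0,0),(1,0,1)⟩,
  ⟨4,4,(1,1,0),(0,0,0),(0,0,1)⟩,
  ⟨3,4,(0,1,0),(0,0,0),(0,0,1)⟩]

def pC : List D :=
  [⟨6,0,(5,0,0),(0,1,0),(3,0,1)⟩,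
  ⟨4,2,(5,0,-1),(0,0,0),(3,1,0)⟩,
  ⟨6,1,(5,0,0),(0,1,0),(4,0,1)⟩,
  ⟨5,2,(5,0,-1),(0,0,0),(4,1,0)⟩,
  ⟨4,3,(4,0,-1),(0,0,0),(3,1,0)⟩,
  ⟨3,4,(3,0,-1),(0,0,0),(2,1,0)⟩,
  ⟨16,9,(5,0,0),(5,-1,0),(3,0,-1)⟩,
  ⟨6,2,(5,0,-1),(0,1,0),(5,0,0)⟩,
  ⟨5,3,(4,0,-1),(0,0,0),(4,1,0)⟩,
  ⟨4,4,(3,0,-1),(0,0,0),(3,1,0)⟩,
  ⟨3,5,(2,0,-1),(0,0,0),(2,1,0)⟩,
  ⟨10,4,(3,0,-1),(4,1,0),(5,0,0)⟩,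
  ⟨14,8,(3,1,0),(5,0,0),(4,0,-1)⟩,
  ⟨15,9,(4,1,0),(5,0,0),(3,0,-1)⟩,
  ⟨16,10,(5,0,0),(5,-1,0),(2,0,-1)⟩,
  ⟨6,3,(4,0,-1),(0,1,0),(5,0,0)⟩,
  ⟨5,4,(3,0,-1),(0,0,0),(4,1,0)⟩,
  ⟨4,5,(2,0,-1),(0,0,0),(3,1,0)⟩,
  ⟨4,7,(0,0,0),(0,0,1),(3,1,0)⟩,
  ⟨3,6,(1,0,-1),(0,0,0),(2,1,0)⟩,
  ⟨9,4,(3,0,-1),(3,1,0),(5,0,0)⟩,
  ⟨10,5,(2,0,-1),(4,1,0),(5,0,0)⟩,
  ⟨13,8,(2,1,0),(5,0,0),(4,0,-1)⟩,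
  ⟨14,9,(3,1,0),(5,0,0),(3,0,-1)⟩,
  ⟨15,10,(4,1,0),(5,0,0),(2,0,-1)⟩,
  ⟨16,11,(5,0,0),(5,-1,0),(1,0,-1)⟩,
  ⟨6,4,(3,0,-1),(0,1,0),(5,0,0)⟩,
  ⟨5,5,(2,0,-1),(0,0,0),(4,1,0)⟩,
  ⟨4,6,(1,0,-1),(0,0,0),(3,1,0)⟩,
  ⟨8,4,(3,0,-1),(2,1,0),(5,0,0)⟩,
  ⟨9,5,(2,0,-1),(3,1,0),(5,0,0)⟩,
  ⟨10,6,(1,0,-1),(4,1,0),(5,0,0)⟩,
  ⟨12,8,(1,1,0),(5,0,0),(4,0,-1)⟩,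
  ⟨13,9,(2,1,0),(5,0,0),(3,0,-1)⟩,
  ⟨14,10,(3,1,0),(5,0,0),(2,0,-1)⟩,
  ⟨15,11,(4,1,0),(5,0,0),(1,0,-1)⟩,
  ⟨7,4,(3,0,-1),(1,1,0),(5,0,0)⟩,
  ⟨6,5,(2,0,-1),(0,1,0),(5,0,0)⟩,
  ⟨5,6,(1,0,-1),(0,0,0),(4,1,0)⟩,
  ⟨8,5,(2,0,-1),(2,1,0),(5,0,0)⟩,
  ⟨9,6,(1,0,-1),(3,1,0),(5,0,0)⟩,
  ⟨10,7,(0,0,0),(4,1,0),(5,0,-1)⟩,
  ⟨11,8,(0,1,0),(5,0,0),(4,0,-1)⟩,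
  ⟨12,9,(1,1,0),(5,0,0),(3,0,-1)⟩,
  ⟨13,10,(2,1,0),(5,0,0),(2,0,-1)⟩,
  ⟨14,11,(3,1,0),(5,0,0),(1,0,-1)⟩,
  ⟨7,5,(2,0,-1),(1,1,0),(5,0,0)⟩,
  ⟨6,6,(1,0,-1),(0,1,0),(5,0,0)⟩,
  ⟨8,6,(1,0,-1),(2,1,0),(5,0,0)⟩,
  ⟨9,7,(0,0,0),(3,1,0),(5,0,-1)⟩,
  ⟨10,8,(0,0,0),(4,1,0),(4,0,-1)⟩,
  ⟨11,9,(0,1,0),(5,0,0),(3,0,-1)⟩,
  ⟨12,10,(1,1,0),(5,0,0),(2,0,-1)⟩,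
  ⟨13,11,(2,1,0),(5,0,0),(1,0,-1)⟩,
  ⟨7,6,(1,0,-1),(1,1,0),(5,0,0)⟩,
  ⟨6,7,(0,0,0),(0,1,0),(5,0,-1)⟩,
  ⟨8,7,(0,0,0),(2,1,0),(5,0,-1)⟩,
  ⟨9,8,(0,0,0),(3,1,0),(4,0,-1)⟩,
  ⟨10,9,(0,0,0),(4,1,0),(3,0,-1)⟩,
  ⟨11,10,(0,1,0),(5,0,0),(2,0,-1)⟩,
  ⟨12,11,(1,1,0),(5,0,0),(1,0,-1)⟩,
  ⟨7,7,(0,0,0),(1,1,0),(5,0,-1)⟩,
  ⟨8,8,(0,0,0),(2,1,0),(4,0,-1)⟩,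
  ⟨9,9,(0,0,0),(3,1,0),(3,0,-1)⟩,
  ⟨10,10,(0,0,0),(4,1,0),(2,0,-1)⟩,
  ⟨11,11,(0,1,0),(5,0,0),(1,0,-1)⟩,
  ⟨15,21,(1,-1,0),(5,0,0),(4,0,1)⟩,
  ⟨7,8,(0,0,0),(1,1,0),(4,0,-1)⟩,
  ⟨6,9,(0,0,0),(0,1,0),(3,0,-1)⟩,
  ⟨8,9,(0,0,0),(2,1,0),(3,0,-1)⟩,
  ⟨9,10,(0,0,0),(3,1,0),(2,0,-1)⟩,
  ⟨10,11,(0,0,0),(4,1,0),(1,0,-1)⟩,
  ⟨14,21,(2,-1,0),(5,0,0),(4,0,1)⟩,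
  ⟨7,9,(0,0,0),(1,1,0),(3,0,-1)⟩,
  ⟨8,10,(0,0,0),(2,1,0),(2,0,-1)⟩,
  ⟨9,11,(0,0,0),(3,1,0),(1,0,-1)⟩,
  ⟨10,12,(0,0,1),(4,1,0),(0,0,0)⟩,
  ⟨12,22,(4,-1,0),(5,0,-1),(5,0,0)⟩,
  ⟨13,21,(3,-1,0),(5,0,0),(4,0,1)⟩,
  ⟨7,10,(0,0,0),(1,1,0),(2,0,-1)⟩,
  ⟨6,11,(0,0,0),(0,1,0),(1,0,-1)⟩,
  ⟨8,11,(0,0,0),(2,1,0),(1,0,-1)⟩,
  ⟨9,12,(0,0,1),(3,1,0),(0,0,0)⟩,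
  ⟨10,13,(1,0,1),(4,1,0),(0,0,0)⟩,
  ⟨12,21,(4,-1,0),(5,0,0),(4,0,1)⟩,
  ⟨7,11,(0,0,0),(1,1,0),(1,0,-1)⟩,
  ⟨8,12,(0,0,1),(2,1,0),(0,0,0)⟩,
  ⟨9,13,(1,0,1),(3,1,0),(0,0,0)⟩,
  ⟨10,14,(2,0,1),(4,1,0),(0,0,0)⟩,
  ⟨9,23,(4,0,-1),(3,1,0),(5,0,0)⟩,
  ⟨10,22,(5,0,-1),(4,1,0),(5,0,0)⟩,
  ⟨11,21,(5,-1,0),(5,0,0),(4,0,1)⟩,
  ⟨7,12,(0,0,1),(1,1,0),(0,0,0)⟩,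
  ⟨8,13,(1,0,1),(2,1,0),(0,0,0)⟩,
  ⟨8,23,(4,0,-1),(2,1,0),(5,0,0)⟩,
  ⟨9,14,(2,0,1),(3,1,0),(0,0,0)⟩,
  ⟨10,15,(3,0,1),(4,1,0),(0,0,0)⟩,
  ⟨9,22,(5,0,-1),(3,1,0),(5,0,0)⟩,
  ⟨10,21,(5,0,0),(4,1,0),(4,0,1)⟩,
  ⟨11,20,(5,-1,0),(5,0,0),(3,0,1)⟩,
  ⟨7,13,(1,0,1),(1,1,0),(0,0,0)⟩,
  ⟨7,23,(4,0,-1),(1,1,0),(5,0,0)⟩,
  ⟨8,14,(2,0,1),(2,1,0),(0,0,0)⟩,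
  ⟨8,22,(5,0,-1),(2,1,0),(5,0,0)⟩,
  ⟨9,15,(3,0,1),(3,1,0),(0,0,0)⟩,
  ⟨10,16,(4,0,1),(4,1,0),(0,0,0)⟩,
  ⟨9,21,(5,0,0),(3,1,0),(4,0,1)⟩,
  ⟨10,20,(5,0,0),(4,1,0),(3,0,1)⟩,
  ⟨7,14,(2,0,1),(1,1,0),(0,0,0)⟩,
  ⟨7,22,(5,0,-1),(1,1,0),(5,0,0)⟩,
  ⟨8,15,(3,0,1),(2,1,0),(0,0,0)⟩,
  ⟨8,21,(5,0,0),(2,1,0),(4,0,1)⟩,
  ⟨9,16,(4,0,1),(3,1,0),(0,0,0)⟩,
  ⟨9,20,(5,0,0),(3,1,0),(3,0,1)⟩,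
  ⟨7,15,(3,0,1),(1,1,0),(0,0,0)⟩,
  ⟨7,21,(5,0,0),(1,1,0),(4,0,1)⟩,
  ⟨8,16,(4,0,1),(2,1,0),(0,0,0)⟩,
  ⟨8,20,(5,0,0),(2,1,0),(3,0,1)⟩,
  ⟨9,17,(5,0,0),(3,1,0),(0,0,1)⟩,
  ⟨9,19,(5,0,0),(3,1,0),(2,0,1)⟩,
  ⟨6,15,(3,0,1),(0,1,0),(0,0,0)⟩,
  ⟨7,16,(4,0,1),(1,1,0),(0,0,0)⟩,
  ⟨7,20,(5,0,0),(1,1,0),(3,0,1)⟩,
  ⟨8,17,(5,0,0),(2,1,0),(0,0,1)⟩,
  ⟨8,19,(5,0,0),(2,1,0),(2,0,1)⟩,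
  ⟨9,18,(5,0,0),(3,1,0),(1,0,1)⟩,
  ⟨6,16,(4,0,1),(0,1,0),(0,0,0)⟩,
  ⟨7,17,(5,0,0),(1,1,0),(0,0,1)⟩,
  ⟨7,19,(5,0,0),(1,1,0),(2,0,1)⟩,
  ⟨8,18,(5,0,0),(2,1,0),(1,0,1)⟩,
  ⟨6,17,(5,0,0),(0,1,0),(0,0,1)⟩,
  ⟨6,19,(5,0,0),(0,1,0),(2,0,1)⟩,
  ⟨7,18,(5,0,0),(1,1,0),(1,0,1)⟩,
  ⟨5,17,(4,1,0),(0,0,0),(0,0,1)⟩,
  ⟨5,19,(4,1,0),(0,0,0),(2,0,1)⟩,
  ⟨6,18,(5,0,0),(0,1,0),(1,0,1)⟩,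
  ⟨3,16,(2,1,0),(1,0,-1),(0,0,0)⟩,
  ⟨4,17,(3,1,0),(0,0,0),(0,0,1)⟩,
  ⟨4,19,(3,1,0),(0,0,0),(2,0,1)⟩,
  ⟨5,18,(4,1,0),(0,0,0),(1,0,1)⟩,
  ⟨2,16,(1,1,0),(1,0,-1),(0,0,0)⟩,
  ⟨3,17,(2,1,0),(0,0,0),(0,0,1)⟩,
  ⟨4,18,(3,1,0),(0,0,0),(1,0,1)⟩,
  ⟨1,16,(0,1,0),(1,0,-1),(0,0,0)⟩,
  ⟨2,17,(1,1,0),(0,0,0),(0,0,1)⟩,
  ⟨3,18,(2,1,0),(0,0,0),(1,0,1)⟩,
  ⟨1,17,(0,1,0),(0,0,0),(0,0,1)⟩,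
  ⟨2,18,(1,1,0),(0,0,0),(1,0,1)⟩,
  ⟨1,18,(0,1,0),(0,0,0),(1,0,1)⟩,
  ⟨0,18,(0,0,0),(1,-1,0),(1,0,1)⟩]


lemma cA : conn pA = true := by decide +kernel
lemma fA : ∀ d ∈ pA, frame 3 d := by decide +kernel
lemma aA : ∀ d ∈ pA, ∀ d' ∈ pA, agree d d' := by decide +kernel
lemma sA : surj 3 pA := by decide +kernel
def mA : ℕ := 104108139437029648486442285396817972724764806196063734673265290083554424293628425206396492638607174343345132768121053320818028600015178103225810014240756288126488947402403221835369992612040149012597332802203025264051512407957294449925420909747858168256978188680759129599836255130964957766149320328821945933097107604965254580663615047799001992996142666095688231065592223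12041002466194089052135131265920033194574387525465461209754498520519968438462198937989406997029796969974199149370513482161466571345219014372720291606604648091748621518714003063758136447644486598135469827108739534694507294183679698308540944990630665823815884551379497854783598681440839129671205078482022707529935351415457447177159883054315595152216394458116283723816286416479088535809667023365744118221243945819144553427955256992864613366442572394485609535232849287672480461737689210841393219218670946675543938445964235986665231912064481110535652612618477109248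
lemma iA : cm pA = mA ∧ nd ((items mA pA).map key) 0 = true := by decide +kernel
lemma okA : chk 3 pA := ⟨fA, aA, sA, inj_of iA.1 iA.2⟩

lemma cB : conn pB = true := by decide +kernel
lemma fB : ∀ d ∈ pB, frame 4 d := by decide +kernel
lemma aB : ∀ d ∈ pB, ∀ d' ∈ pB, agree d d' := by decide +kernel
lemma sB : surj 4 pB := by decide +kernel
def mB : ℕ := 8445624820027429018506423698829927843096277547758699161839893536205315700615744305176004536177554647395085737609192045803837149093356075292838328051439134885893907094719031478164518443599895518669993756453551241502735643296470039582767098494003123301448408202680161925485999496944787373853267019962250618149074893384578679053410654237927268382578632524674076572448392672836833963304620213043993254730822941958395580755736782570860486988086773131823106814011099418536733379577590942264397650966906625762783348870263473019952662075294840523037573479576353711887565990418689030976810444547679662340722959470366731800493502306349125653108401781003306479084634112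
lemma iB : cm pB = mB ∧ nd ((items mB pB).map key) 0 = true := by decide +kernel
lemma okB : chk 4 pB := ⟨fB, aB, sB, inj_of iB.1 iB.2⟩

lemma cC : conn pC = true := by decide +kernel
lemma fC : ∀ d ∈ pC, frame 5 d := by decide +kernel
lemma aC : ∀ d ∈ pC, ∀ d' ∈ pC, agree d d' := by decide +kernel
lemma sC : surj 5 pC := by decide +kernel
def mC : ℕ := 1041081394370296484864422853968179727247648061960637346732652900835544242936284252063964926386071743433451327681210533208180286000151781032258100142407562881264889474024032218353699926120401490125973328022030252640515124079572944499254209097478581682569781886807591295999207113791652320563343845658102452115280703804428415722820139831610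5515000230010914744827642736776959436088203803281097938968415013389269867225853516900344640392427614687469940363456433006892548466963730652700612016217804763041384801781471214294729906096499951301680639489063255081235018339865155432077726888609587891872862733108962778872259013244456340558627951946247456435515404143749884249071736753530471893746996213183959730743541303681925348217564930294823234823149858666126751931421016711024847006729168014816900975209654939908206965609967965185888944736853662899150768666021285940898881011669635014305177764729488971581037717589512316655919097561743360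
lemma iC : cm pC = mC ∧ nd ((items mC pC).map key) 0 = true := by decide +kernel
lemma okC : chk 5 pC := ⟨fC, aC, sC, inj_of iC.1 iC.2⟩

lemma okU1 : ∀ d ∈ pC, has pA d.i d.j ∨ has pB d.i d.j := by decide +kernel
lemma okU2 : ∀ d ∈ pA ++ pB, has pC d.i d.j := by decide +kernel
lemma okU3 : ∀ d ∈ pA, ¬ has pB d.i d.j := by decide +kernel
lemma okU4 : (pC.map fun d => (d.i, d.j)).Nodup ∧ pC.length = 150 := by decide +kernel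

end Pool.Agent.H.MP_4a7072_co
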