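import Pool.Agent.H.MP_4a7072_co.B

namespace Pool.Agent.H.MP_4a7072_co

open Pool.Agent.H.MP_ea7ca7_co

/-- A two-piece dissection for the triple `(a, b, c)`. -/
def TwoPiece (a b c : ℕ) : Prop :=
  ∃ Pc Pa Pb : Finset (ℤ × ℤ), IsPolyomino Pc ∧ IsPolyomino Pa ∧ IsPolyomino Pb ∧
    Pc.card = 6 * c ^ 2 ∧ Pc = Pa ∪ Pb ∧ Disjoint Pa Pb ∧
    FoldsInto (region Pc) c ∧ FoldsInto (region Pa) a ∧ FoldsInto (region Pb) b

lemma TwoPiece.scale {a b c t : ℕ} (h : TwoPiece a b c) (ht : 0 < t) :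
    TwoPiece (t * a) (t * b) (t * c) := by
  obtain ⟨Pc, Pa, Pb, h1, h2, h3, h4, h5, h6, h7, h8, h9⟩ := h
  have ht' : (0 : ℝ) < t := by exact_mod_cast ht
  refine ⟨sim t 0 Pc, sim t 0 Pa, sim t 0 Pb, poly_sim ht 0 h1, poly_sim ht 0 h2, poly_sim ht 0 h3,
    by rw [card_sim ht, h4]; ring, ?_, ?_, ?_, ?_, ?_⟩
  · ext x; simp only [mem_sim ht, h5, Finset.mem_union]
  · rw [Finset.disjoint_left] at h6 ⊢
    intro x k1 k2
    exact h6 ((mem_sim ht).1 k1) ((mem_sim ht).1 k2)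
  · rw [region_sim ht]; push_cast; exact into_sim h7 t ht' _
  · rw [region_sim ht]; push_cast; exact into_sim h8 t ht' _
  · rw [region_sim ht]; push_cast; exact into_sim h9 t ht' _

lemma base345 : TwoPiece 3 4 5 := by
  refine ⟨cellsOf pC, cellsOf pA, cellsOf pB, poly_of_conn _ cC, poly_of_conn _ cA, poly_of_conn _ cB,
    ?_, ?_, ?_, into_of_chk (by norm_num) okC, into_of_chk (by norm_num) okA,
    into_of_chk (by norm_num) okB⟩
  · rw [cellsOf, List.toFinset_card_of_nodup okU4.1, List.length_map, okU4.2]; norm_num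
  · ext c
    simp only [Finset.mem_union, mem_cellsOf]
    constructor
    · rintro ⟨d, hd, e1, e2⟩
      rw [← e1, ← e2]; exact okU1 d hd
    · rintro (⟨d, hd, e1, e2⟩ | ⟨d, hd, e1, e2⟩) <;> rw [← e1, ← e2]
      · exact okU2 d (List.mem_append_left _ hd)
      · exact okU2 d (List.mem_append_right _ hd)
  · rw [Finset.disjoint_left]
    intro c k1 k2
    obtain ⟨d, hd, e1, e2⟩ := mem_cellsOf.1 k1
    exact okU3 d hd (by rw [e1, e2]; exact mem_cellsOf.1 k2)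

end Pool.Agent.H.MP_4a7072_co
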